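import Pool.Agent.helper68.AM.SpecX

/-!
Project sl:, module XQ: positivity of the traces of A^i B^j.
-/

set_option autoImplicit false

namespace AM

open Pool.Agent.helper72.Sq Matrix

/-- the determinant of the matrix commutator -/
def XQ_D (X Y : SpecialLinearGroup (Fin 2) ℝ) : ℝ :=
  -(X 0 1 * Y 1 0 - X 1 0 * Y 0 1) ^ 2 -
    ((X 0 0 - X 1 1) * Y 0 1 - X 0 1 * (Y 0 0 - Y 1 1)) *
      (X 1 0 * (Y 0 0 - Y 1 1) - (X 0 0 - X 1 1) * Y 1 0)

theorem XQ_comm (X Y : SpecialLinearGroup (Fin 2) ℝ) :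
    tr (X * Y * X⁻¹ * Y⁻¹) = 2 - XQ_D X Y := by
  rw [tr_commutator]
  have hX := sl2_det X
  have hY := sl2_det Y
  unfold tr XQ_D
  simp only [sl2_mul]
  linear_combination (4 - (Y 0 0 + Y 1 1) ^ 2) * hX +
    (4 * (X 0 0 * X 1 1 - X 0 1 * X 1 0) - (X 0 0 + X 1 1) ^ 2) * hY

theorem XQ_pow (A : SpecialLinearGroup (Fin 2) ℝ) (i : ℕ) : ∃ p q : ℝ,
    (A ^ i) 0 0 = p * A 0 0 + q ∧ (A ^ i) 0 1 = p * A 0 1 ∧ (A ^ i) 1 0 = p * A 1 0 ∧
      (A ^ i) 1 1 = p * A 1 1 + q := by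
  induction i with
  | zero => exact ⟨0, 1, by simp, by simp, by simp, by simp⟩
  | succ i ih =>
    obtain ⟨p, q, h1, h2, h3, h4⟩ := ih
    have hA := sl2_det A
    refine ⟨p * (A 0 0 + A 1 1) + q, -p, ?_, ?_, ?_, ?_⟩
    · rw [pow_succ, sl2_mul, h1, h2]
      linear_combination (-p) * hA
    · rw [pow_succ, sl2_mul, h1, h2]
      ring
    · rw [pow_succ, sl2_mul, h3, h4]
      ring
    · rw [pow_succ, sl2_mul, h3, h4]
      linear_combination (-p) * hA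

theorem XQ_tr (A : SpecialLinearGroup (Fin 2) ℝ) (hA : 2 ≤ tr A) (i : ℕ) :
    2 ≤ tr (A ^ i) ∧ tr (A ^ i) ≤ tr (A ^ (i + 1)) := by
  induction i with
  | zero =>
    have : tr (1 : SpecialLinearGroup (Fin 2) ℝ) = 2 := by
      unfold tr
      simp
      norm_num
    rw [pow_zero, zero_add, pow_one, this]
    exact ⟨le_rfl, hA⟩
  | succ i ih =>
    obtain ⟨h1, h2⟩ := ih
    refine ⟨h1.trans h2, ?_⟩
    have h3 : tr (A ^ (i + 1 + 1)) = tr A * tr (A ^ (i + 1)) - tr (A ^ i) := by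
      rw [pow_succ' A (i + 1), pow_succ' A i]
      exact tr_mul_mul A (A ^ i)
    rw [h3]
    nlinarith

theorem XQ_comm_pow (A B : SpecialLinearGroup (Fin 2) ℝ) (h : tr (A * B * A⁻¹ * B⁻¹) ≤ -2)
    (i j : ℕ) : tr (A ^ i * B ^ j * (A ^ i)⁻¹ * (B ^ j)⁻¹) ≤ 2 := by
  obtain ⟨p, q, h1, h2, h3, h4⟩ := XQ_pow A i
  obtain ⟨r, s, k1, k2, k3, k4⟩ := XQ_pow B j
  rw [XQ_comm] at h ⊢
  have e : XQ_D (A ^ i) (B ^ j) = (p * r) ^ 2 * XQ_D A B := by
    unfold XQ_D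
    rw [h1, h2, h3, h4, k1, k2, k3, k4]
    ring
  rw [e]
  have hD : 0 ≤ XQ_D A B := by linarith
  have := mul_nonneg (sq_nonneg (p * r)) hD
  linarith

theorem XQ : XQ_stmt := by
  intro A B hA hB hAB i j
  have hX := (XQ_tr A hA i).1
  have hY := (XQ_tr B hB j).1
  have hc := XQ_comm_pow A B hAB i j
  rw [tr_commutator] at hc
  have hs : tr (A ^ i * B ^ j) = tr (A ^ i) * tr (B ^ j) - tr ((A ^ i)⁻¹ * B ^ j) := by
    have := tr_mul_mul (A ^ i) ((A ^ i)⁻¹ * B ^ j)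
    rwa [mul_inv_cancel_left] at this
  generalize tr (A ^ i * B ^ j) = P at *
  generalize tr ((A ^ i)⁻¹ * B ^ j) = M at *
  generalize tr (A ^ i) = x at *
  generalize tr (B ^ j) = y at *
  have hxy : 4 ≤ x * y := by nlinarith
  have hM : M = x * y - P := by linarith
  have hPM : 4 ≤ P * M := by
    rw [hM]
    nlinarith
  have hP0 : 0 < P := by
    by_contra hn
    rw [not_lt] at hn
    have hM0 : 0 ≤ M := by linarith
    have := mul_nonpos_of_nonpos_of_nonneg hn hM0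
    linarith
  have hM0 : 0 < M := by
    by_contra hn
    rw [not_lt] at hn
    have := mul_nonpos_of_nonneg_of_nonpos hP0.le hn
    linarith
  exact ⟨hP0, hM0, by linarith, by linarith⟩

end AM
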