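import Mathlib
import Pool.Agent.helper68.AM.Spec
import Pool.Agent.helper68.AM.Tree

/-!
Project sl: (AM), module RSC: below a node of size about `C3 (q + 1)` at most one direction of
size `< 2 ^ (q + 1)` is resonant.
-/

set_option autoImplicit false

namespace AM

open Pool.Agent.helper72.Sq Finset

/-- linear algebra of the node basis -/
lemma RSC_det (x : Nd) (h : x.v1 * x.w2 = x.v2 * x.w1 + 1) (d1 d2 e1 e2 : ℤ) :
    x.al d1 d2 * x.be e1 e2 - x.al e1 e2 * x.be d1 d2 = d1 * e2 - d2 * e1 := by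
  have h' : (x.v1 : ℤ) * x.w2 = x.v2 * x.w1 + 1 := by exact_mod_cast h
  simp only [Nd.al, Nd.be]
  linear_combination (d1 * e2 - d2 * e1) * h'

lemma RSC_al_le (x : Nd) (d1 d2 : ℤ) (h1 : d1 < 0) (h2 : 0 < d2) : x.al d1 d2 ≤ 0 := by
  simp only [Nd.al]
  have a : (0 : ℤ) ≤ x.w2 := Int.natCast_nonneg _
  have b : (0 : ℤ) ≤ x.w1 := Int.natCast_nonneg _
  nlinarith

lemma RSC_be_ge (x : Nd) (d1 d2 : ℤ) (h1 : d1 < 0) (h2 : 0 < d2) : 0 ≤ x.be d1 d2 := by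
  simp only [Nd.be]
  have a : (0 : ℤ) ≤ x.v1 := Int.natCast_nonneg _
  have b : (0 : ℤ) ≤ x.v2 := Int.natCast_nonneg _
  nlinarith

lemma RSC_al_ge (x : Nd) (d1 d2 N : ℤ) (h1 : -N < d1) (h2 : d2 < N) :
    -(N * x.m2) ≤ x.al d1 d2 := by
  simp only [Nd.al, Nd.m2]
  have a : (0 : ℤ) ≤ x.w2 := Int.natCast_nonneg _
  have b : (0 : ℤ) ≤ x.w1 := Int.natCast_nonneg _
  push_cast
  nlinarith

lemma RSC_be_le (x : Nd) (d1 d2 N : ℤ) (h1 : -N < d1) (h2 : d2 < N) :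
    x.be d1 d2 ≤ N * x.m1 := by
  simp only [Nd.be, Nd.m1]
  have a : (0 : ℤ) ≤ x.v1 := Int.natCast_nonneg _
  have b : (0 : ℤ) ≤ x.v2 := Int.natCast_nonneg _
  push_cast
  nlinarith

/-- coprime vectors of the same cone which are parallel are equal -/
lemma RSC_eq (d1 d2 e1 e2 : ℤ) (h1 : d1 < 0) (g1 : e1 < 0)
    (hd : IsCoprime d1 d2) (he : IsCoprime e1 e2) (h : d1 * e2 = d2 * e1) : d1 = e1 ∧ d2 = e2 := by
  have a1 : d1 ∣ e1 := by
    have : d1 ∣ d2 * e1 := ⟨e2, h.symm⟩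
    exact hd.dvd_of_dvd_mul_left this
  have a2 : e1 ∣ d1 := by
    have : e1 ∣ d1 * e2 := ⟨d2, by rw [h]; ring⟩
    exact he.dvd_of_dvd_mul_right this
  have hab : d1 = e1 := by
    have hn : d1.natAbs = e1.natAbs := Int.natAbs_eq_of_dvd_dvd a1 a2
    omega
  refine ⟨hab, ?_⟩
  subst hab
  have : d1 * e2 = d1 * d2 := by rw [h]; ring
  exact (mul_left_cancel₀ h1.ne this).symm

/-- the functional at the node is small as soon as it is small at a leaf below it -/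
lemma RSC_La {c c' k t0 : ℝ} (hP : Par c c' k t0) (hMN : MN_stmt) {C : ℝ} (hC0 : 0 < C)
    (hC : ∀ Q : Tri, Gr Q → kap Q ≤ k → t0 ≤ Q.1 → t0 ≤ Q.2.1 →
      len Q.2.1 - E1 Q ≤ C * Real.exp (-(len Q.1 + len Q.2.1)) ∧
      len Q.1 - E2 Q ≤ C * Real.exp (-(len Q.1 + len Q.2.1)))
    (M n : ℕ) (x y : Nd) (hx : GN c c' k t0 x) (hy : y ∈ lvs M n x) (d1 d2 N : ℤ)
    (h1 : d1 < 0) (h2 : 0 < d2) (g1 : -N < d1) (g2 : d2 < N) :
    |x.La d1 d2| ≤ |y.La d1 d2| +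
      C * (N * (x.m1 + x.m2 : ℕ)) * Real.exp (-(c * (x.m1 + x.m2 : ℕ))) := by
  have ha := RSC_al_le x d1 d2 h1 h2
  have hb := RSC_be_ge x d1 d2 h1 h2
  obtain ⟨p1, p2, p3, p4, -, -⟩ := hMN c c' k t0 hP M n x hx y hy d1 d2 ha hb
  obtain ⟨q1, q2, q3, q4, -, -⟩ := hMN c c' k t0 hP M 0 x hx x (by simp [lvs]) d1 d2 ha hb
  obtain ⟨r1, r2⟩ := hC x.t hx.gr hx.1.hk hx.1.tx hx.1.ty
  have hSI : x.S d1 d2 - x.I d1 d2 ≤
      C * (N * (x.m1 + x.m2 : ℕ)) * Real.exp (-(c * (x.m1 + x.m2 : ℕ))) := by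
    have e : x.S d1 d2 - x.I d1 d2 = (-(x.al d1 d2 : ℝ)) * (len x.t.1 - E2 x.t) +
        (x.be d1 d2 : ℝ) * (len x.t.2.1 - E1 x.t) := by
      simp only [Nd.S, Nd.I, Nd.l1, Nd.l2]; ring
    have a0 : (0 : ℝ) ≤ -(x.al d1 d2 : ℝ) := by
      have : (x.al d1 d2 : ℝ) ≤ 0 := by exact_mod_cast ha
      linarith
    have b0 : (0 : ℝ) ≤ (x.be d1 d2 : ℝ) := by exact_mod_cast hb
    have a1 : -(x.al d1 d2 : ℝ) ≤ N * x.m2 := by
      have := RSC_al_ge x d1 d2 N g1 g2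
      have : ((-(N * x.m2) : ℤ) : ℝ) ≤ (x.al d1 d2 : ℝ) := by exact_mod_cast this
      push_cast at this
      linarith
    have b1 : (x.be d1 d2 : ℝ) ≤ N * x.m1 := by
      have := RSC_be_le x d1 d2 N g1 g2
      exact_mod_cast this
    have hE : Real.exp (-(len x.t.1 + len x.t.2.1)) ≤ Real.exp (-(c * (x.m1 + x.m2 : ℕ))) := by
      apply Real.exp_le_exp.2
      have u1 := hx.l1_ge
      have u2 := hx.l2_ge
      simp only [Nd.l1, Nd.l2] at u1 u2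
      push_cast
      linarith
    have hE0 := Real.exp_pos (-(len x.t.1 + len x.t.2.1))
    rw [e]
    calc (-(x.al d1 d2 : ℝ)) * (len x.t.1 - E2 x.t) + (x.be d1 d2 : ℝ) * (len x.t.2.1 - E1 x.t)
        ≤ (-(x.al d1 d2 : ℝ)) * (C * Real.exp (-(len x.t.1 + len x.t.2.1))) +
          (x.be d1 d2 : ℝ) * (C * Real.exp (-(len x.t.1 + len x.t.2.1))) := by gcongr
      _ = (-(x.al d1 d2 : ℝ) + x.be d1 d2) * (C * Real.exp (-(len x.t.1 + len x.t.2.1))) := by ring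
      _ ≤ (N * (x.m1 + x.m2 : ℕ)) * (C * Real.exp (-(c * (x.m1 + x.m2 : ℕ)))) := by
          apply mul_le_mul _ _ (by positivity) _
          · push_cast; linarith
          · gcongr
          · have : (0 : ℝ) ≤ -(x.al d1 d2 : ℝ) + x.be d1 d2 := by linarith
            push_cast; linarith
      _ = _ := by ring
  have k1 := neg_abs_le (y.La d1 d2)
  have k2 := le_abs_self (y.La d1 d2)
  rw [abs_le]
  constructor <;> linarith

theorem RSC (hGF : GF_stmt) (hMN : MN_stmt) : RSC_stmt := by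
  intro c c' k t0 hP κ hκ
  obtain ⟨C, hC0, hC⟩ := hGF k t0 hP.k0 hP.t2
  have hc := hP.c0
  -- choice of C3
  obtain ⟨C3, hC31, hC3a, hC3b⟩ : ∃ C3 : ℕ, 1 ≤ C3 ∧ Real.exp (-(c * C3 / 2)) ≤ 1 / 4 ∧
      64 * C / c ^ 2 * Real.exp (-(c * C3 / 2)) < c / 2 := by
    have hlim : Filter.Tendsto (fun n : ℕ => Real.exp (-(c * n / 2))) Filter.atTop (nhds 0) := by
      apply Real.tendsto_exp_neg_atTop_nhds_zero.comp
      apply Filter.Tendsto.atTop_div_const (by norm_num)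
      exact (tendsto_natCast_atTop_atTop).const_mul_atTop hc
    have e1 : ∀ᶠ n : ℕ in Filter.atTop, Real.exp (-(c * n / 2)) ≤ 1 / 4 :=
      (hlim.eventually (gt_mem_nhds (show (0 : ℝ) < 1 / 4 by norm_num))).mono fun _ h => h.le
    have hlim2 := hlim.const_mul (64 * C / c ^ 2)
    rw [mul_zero] at hlim2
    have e2 : ∀ᶠ n : ℕ in Filter.atTop, 64 * C / c ^ 2 * Real.exp (-(c * n / 2)) < c / 2 :=
      hlim2.eventually (gt_mem_nhds (by positivity))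
    obtain ⟨n, hn⟩ := ((e1.and e2).and (Filter.eventually_ge_atTop 1)).exists
    exact ⟨n, hn.2, hn.1.1, hn.1.2⟩
  -- choice of j1
  obtain ⟨j1, hj1⟩ : ∃ j1 : ℕ, ∀ j : ℕ, j1 ≤ j →
      16 * (C3 : ℝ) * (j : ℝ) ^ 12 * Real.exp (-(κ * j)) < c / 2 := by
    have hlim : Filter.Tendsto (fun n : ℕ => (κ * n) ^ 12 * Real.exp (-(κ * n)))
        Filter.atTop (nhds 0) :=
      (Real.tendsto_pow_mul_exp_neg_atTop_nhds_zero 12).comp
        ((tendsto_natCast_atTop_atTop (R := ℝ)).const_mul_atTop hκ)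
    have hlim2 := hlim.const_mul (16 * (C3 : ℝ) / κ ^ 12)
    rw [mul_zero] at hlim2
    have e2 := hlim2.eventually (gt_mem_nhds (show (0 : ℝ) < c / 2 by positivity))
    rw [Filter.eventually_atTop] at e2
    obtain ⟨j1, h⟩ := e2
    refine ⟨j1, fun j hj => ?_⟩
    have := h j hj
    refine lt_of_eq_of_lt ?_ this
    field_simp
  refine ⟨C3, j1, hC31, ?_⟩
  intro j M n q x y y' d1 d2 e1 e2 hj hq hx hm1 hm2 hy hy' hd1 hd2 he1 he2 hcd hce
    hd1N hd2N he1N he2N hyd hye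
  by_contra hne
  have hdet : d1 * e2 - d2 * e1 ≠ 0 := by
    intro h0
    exact hne (RSC_eq d1 d2 e1 e2 hd1 he1 hcd hce (by linarith))
  set m := x.m1 + x.m2 with hm
  have hd := RSC_La hP hMN hC0 hC M n x y hx hy d1 d2 (2 ^ (q + 1)) hd1 hd2 hd1N hd2N
  have he := RSC_La hP hMN hC0 hC M n x y' hx hy' e1 e2 (2 ^ (q + 1)) he1 he2 he1N he2N
  rw [← hm] at hd he
  push_cast at hd he
  -- common bound
  set T : ℝ := Real.exp (-(κ * j)) + C * (2 ^ (q + 1) * m) * Real.exp (-(c * m)) with hT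
  have hdT : |x.La d1 d2| ≤ T := by rw [hT]; linarith
  have heT : |x.La e1 e2| ≤ T := by rw [hT]; linarith
  have hT0 : 0 ≤ T := (abs_nonneg _).trans hdT
  -- be bounds
  have bd : (x.be d1 d2 : ℝ) ≤ 2 ^ (q + 1) * m := by
    have h := RSC_be_le x d1 d2 (2 ^ (q + 1)) hd1N hd2N
    have h' : (x.be d1 d2 : ℝ) ≤ 2 ^ (q + 1) * x.m1 := by exact_mod_cast h
    refine h'.trans ?_
    have : (x.m1 : ℝ) ≤ m := by rw [hm]; push_cast; linarith [Nat.cast_nonneg (α := ℝ) x.m2]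
    gcongr
  have be' : (x.be e1 e2 : ℝ) ≤ 2 ^ (q + 1) * m := by
    have h := RSC_be_le x e1 e2 (2 ^ (q + 1)) he1N he2N
    have h' : (x.be e1 e2 : ℝ) ≤ 2 ^ (q + 1) * x.m1 := by exact_mod_cast h
    refine h'.trans ?_
    have : (x.m1 : ℝ) ≤ m := by rw [hm]; push_cast; linarith [Nat.cast_nonneg (α := ℝ) x.m2]
    gcongr
  have bd0 : (0 : ℝ) ≤ (x.be d1 d2 : ℝ) := by exact_mod_cast RSC_be_ge x d1 d2 hd1 hd2
  have be0 : (0 : ℝ) ≤ (x.be e1 e2 : ℝ) := by exact_mod_cast RSC_be_ge x e1 e2 he1 he2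
  -- the identity
  have hid : (x.be e1 e2 : ℝ) * x.La d1 d2 - x.be d1 d2 * x.La e1 e2 =
      ((d1 * e2 - d2 * e1 : ℤ) : ℝ) * x.l1 := by
    rw [← RSC_det x hx.2 d1 d2 e1 e2]
    simp only [Nd.La]
    push_cast
    ring
  have hl1 : c ≤ x.l1 := hx.l1_ge' hc
  have hone : (1 : ℝ) ≤ |((d1 * e2 - d2 * e1 : ℤ) : ℝ)| := by
    rw [← Int.cast_abs]
    exact_mod_cast Int.one_le_abs hdet
  have hlow : c ≤ 2 * (2 ^ (q + 1) * m) * T := by
    calc c ≤ 1 * x.l1 := by linarith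
      _ ≤ |((d1 * e2 - d2 * e1 : ℤ) : ℝ)| * x.l1 := by
          apply mul_le_mul_of_nonneg_right hone (by linarith)
      _ = |((d1 * e2 - d2 * e1 : ℤ) : ℝ) * x.l1| := by
          rw [abs_mul, abs_of_nonneg (show 0 ≤ x.l1 by linarith)]
      _ = |(x.be e1 e2 : ℝ) * x.La d1 d2 - x.be d1 d2 * x.La e1 e2| := by rw [hid]
      _ ≤ |(x.be e1 e2 : ℝ) * x.La d1 d2| + |x.be d1 d2 * x.La e1 e2| := abs_sub _ _
      _ = (x.be e1 e2 : ℝ) * |x.La d1 d2| + x.be d1 d2 * |x.La e1 e2| := by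
          rw [abs_mul, abs_mul, abs_of_nonneg bd0, abs_of_nonneg be0]
      _ ≤ (2 ^ (q + 1) * m) * T + (2 ^ (q + 1) * m) * T := by
          gcongr
      _ = _ := by ring
  -- upper bounds
  have hmr1 : (C3 : ℝ) * (q + 1) ≤ m := by exact_mod_cast hm1
  have hmr2 : (m : ℝ) ≤ 2 * (C3 * (q + 1)) := by exact_mod_cast hm2
  have hqj : (2 : ℝ) ^ q ≤ (j : ℝ) ^ 6 := by exact_mod_cast hq
  have hq1 : (q : ℝ) + 1 ≤ 2 ^ q := by
    have : q + 1 ≤ 2 ^ q := Nat.lt_two_pow_self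
    exact_mod_cast this
  have hC3r : (1 : ℝ) ≤ C3 := by exact_mod_cast hC31
  have hm0 : (0 : ℝ) < m := by
    have : (0 : ℝ) ≤ q := Nat.cast_nonneg q
    nlinarith
  have up1 : 2 * (2 ^ (q + 1) * m) * Real.exp (-(κ * j)) < c / 2 := by
    refine lt_of_le_of_lt ?_ (hj1 j hj)
    have hE := Real.exp_pos (-(κ * j))
    apply mul_le_mul_of_nonneg_right _ hE.le
    calc 2 * ((2 : ℝ) ^ (q + 1) * m) ≤ 2 * ((2 : ℝ) ^ (q + 1) * (2 * (C3 * (q + 1)))) := by gcongr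
      _ ≤ 2 * ((2 : ℝ) ^ (q + 1) * (2 * (C3 * 2 ^ q))) := by gcongr
      _ = 8 * C3 * (2 ^ q * 2 ^ q) := by rw [pow_succ]; ring
      _ ≤ 8 * C3 * ((j : ℝ) ^ 6 * (j : ℝ) ^ 6) := by gcongr
      _ = 8 * C3 * (j : ℝ) ^ 12 := by ring
      _ ≤ 16 * C3 * (j : ℝ) ^ 12 := by
          have : (0 : ℝ) ≤ C3 * (j : ℝ) ^ 12 := by positivity
          nlinarith
  have hexp2 : (m : ℝ) ^ 2 * Real.exp (-(c * m)) ≤ 8 / c ^ 2 * Real.exp (-(c * m / 2)) := by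
    have h1 : (c * m / 2) ^ 2 / 2 ≤ Real.exp (c * m / 2) := by
      have h0 : 0 ≤ c * m / 2 := by positivity
      have := Real.quadratic_le_exp_of_nonneg h0
      nlinarith
    have h2 : Real.exp (-(c * m)) = Real.exp (-(c * m / 2)) * (Real.exp (c * m / 2))⁻¹ := by
      rw [← Real.exp_neg, ← Real.exp_add]; congr 1; ring
    rw [h2]
    have h3 := Real.exp_pos (c * m / 2)
    have h4 := Real.exp_pos (-(c * m / 2))
    rw [show (m : ℝ) ^ 2 * (Real.exp (-(c * m / 2)) * (Real.exp (c * m / 2))⁻¹) =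
      (m : ℝ) ^ 2 * (Real.exp (c * m / 2))⁻¹ * Real.exp (-(c * m / 2)) by ring]
    apply mul_le_mul_of_nonneg_right _ h4.le
    rw [← div_eq_mul_inv, div_le_div_iff₀ h3 (by positivity)]
    nlinarith
  have up2 : 2 * (2 ^ (q + 1) * m) * (C * (2 ^ (q + 1) * m) * Real.exp (-(c * m))) < c / 2 := by
    refine lt_of_le_of_lt ?_ hC3b
    set δ := Real.exp (-(c * C3 / 2)) with hδ
    have hδ0 : 0 < δ := Real.exp_pos _
    have h5 : Real.exp (-(c * m / 2)) ≤ δ ^ (q + 1) := by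
      rw [hδ, ← Real.exp_nat_mul]
      apply Real.exp_le_exp.2
      push_cast
      nlinarith
    have h6 : (4 : ℝ) ^ q * δ ^ (q + 1) ≤ δ := by
      rw [pow_succ, ← mul_assoc, ← mul_pow]
      have : (4 * δ) ^ q ≤ 1 := pow_le_one₀ (by positivity) (by linarith)
      nlinarith
    calc 2 * ((2 : ℝ) ^ (q + 1) * m) * (C * (2 ^ (q + 1) * m) * Real.exp (-(c * m)))
        = 8 * C * 4 ^ q * ((m : ℝ) ^ 2 * Real.exp (-(c * m))) := by
          have : (4 : ℝ) ^ q = 2 ^ q * 2 ^ q := by rw [← mul_pow]; norm_num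
          rw [this, pow_succ]; ring
      _ ≤ 8 * C * 4 ^ q * (8 / c ^ 2 * Real.exp (-(c * m / 2))) := by gcongr
      _ ≤ 8 * C * 4 ^ q * (8 / c ^ 2 * δ ^ (q + 1)) := by gcongr
      _ = 64 * C / c ^ 2 * (4 ^ q * δ ^ (q + 1)) := by ring
      _ ≤ 64 * C / c ^ 2 * δ := by gcongr
  have : 2 * (2 ^ (q + 1) * m) * T < c := by
    rw [hT, mul_add]
    linarith
  linarith

end AM
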