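import Mathlib
import Pool.Agent.helper68.AM.Spec
import Pool.Agent.helper68.AM.Tree

/-!
Project sl: (AM), module TB: trivial bound for the remainder.
-/

set_option autoImplicit false

namespace AM

open Pool.Agent.helper72.Sq Finset

lemma TB_pow : ∀ j : ℕ, 16 ≤ j → j ^ 4 ≤ 2 ^ j := by
  intro j hj
  induction j, hj using Nat.le_induction with
  | base => norm_num
  | succ n hn ih =>
    have h1 : (n + 1) ^ 4 ≤ 2 * n ^ 4 := by
      have e : (n + 1) ^ 4 = n ^ 4 + 4 * n ^ 3 + 6 * n ^ 2 + 4 * n + 1 := by ring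
      have h3 : 16 * n ^ 3 ≤ n ^ 4 := by
        calc 16 * n ^ 3 ≤ n * n ^ 3 := Nat.mul_le_mul_right _ hn
          _ = n ^ 4 := by ring
      have h2 : 16 * n ^ 2 ≤ n ^ 3 := by
        calc 16 * n ^ 2 ≤ n * n ^ 2 := Nat.mul_le_mul_right _ hn
          _ = n ^ 3 := by ring
      have h1 : 16 * n ≤ n ^ 2 := by
        calc 16 * n ≤ n * n := Nat.mul_le_mul_right _ hn
          _ = n ^ 2 := by ring
      omega
    calc (n + 1) ^ 4 ≤ 2 * n ^ 4 := h1
      _ ≤ 2 * 2 ^ n := Nat.mul_le_mul_left _ ih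
      _ = 2 ^ (n + 1) := by ring

lemma TB_leaf (hLM : LM_stmt) {c c' k t0 : ℝ} (hP : Par c c' k t0) (y : Nd) (hy : GN c c' k t0 y)
    (r η : ℝ) (hr : 0 ≤ r) (hη0 : 0 ≤ η) (hη1 : η ≤ 1) (hrη : r * η ≤ 2)
    (hsub : HS y.t r ⊆ LinSet y.l1 y.l2 (r + η)) :
    |Ht y.t r - r ^ 2 * (1 / (2 * y.l1 * y.l2))| ≤
      |SS y.l1 y.l2 r| + |SS y.l1 y.l2 (r + η)| +
        (y.l2 / y.l1 + 1 + (5 / (2 * c ^ 2) + 1 / (2 * c))) := by
  have hc := hP.c0
  have h1 : c ≤ y.l1 := hy.l1_ge' hc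
  have h2 : c ≤ y.l2 := hy.l2_ge' hc
  have h10 : 0 < y.l1 := by linarith
  have h20 : 0 < y.l2 := by linarith
  have f1 := LinSet_finite y.l1 y.l2 (r + η) h10 h20
  have hlow : ((LinSet y.l1 y.l2 r).ncard : ℝ) ≤ ((HS y.t r).ncard : ℝ) := by
    exact_mod_cast Set.ncard_le_ncard (LinSet_subset_HS hy.gr r) (HS_finite hy.gr r)
  have hup : ((HS y.t r).ncard : ℝ) ≤ ((LinSet y.l1 y.l2 (r + η)).ncard : ℝ) := by
    exact_mod_cast Set.ncard_le_ncard hsub f1
  have m1 := abs_le.1 (hLM y.l1 y.l2 r h10 h20 hr)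
  have m2 := abs_le.1 (hLM y.l1 y.l2 (r + η) h10 h20 (by linarith))
  have e1 : Ht y.t r = ((HS y.t r).ncard : ℝ) - r / (2 * y.l1) + r / (2 * y.l2) := rfl
  have s1 := neg_abs_le (SS y.l1 y.l2 r)
  have s2 := le_abs_self (SS y.l1 y.l2 r)
  have s3 := neg_abs_le (SS y.l1 y.l2 (r + η))
  have s4 := le_abs_self (SS y.l1 y.l2 (r + η))
  have s5 := abs_nonneg (SS y.l1 y.l2 (r + η))
  have s6 := abs_nonneg (SS y.l1 y.l2 r)
  have q1 : (r + η) ^ 2 / (2 * y.l1 * y.l2) ≤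
      r ^ 2 * (1 / (2 * y.l1 * y.l2)) + 5 / (2 * c ^ 2) := by
    have e : (r + η) ^ 2 / (2 * y.l1 * y.l2) =
        r ^ 2 * (1 / (2 * y.l1 * y.l2)) + (2 * (r * η) + η ^ 2) / (2 * y.l1 * y.l2) := by
      field_simp; ring
    rw [e]
    have : (2 * (r * η) + η ^ 2) / (2 * y.l1 * y.l2) ≤ 5 / (2 * c ^ 2) := by
      apply div_le_div₀ (by norm_num) _ (by positivity) _
      · nlinarith
      · nlinarith
    linarith
  have q2 : (r + η) / (2 * y.l1) ≤ r / (2 * y.l1) + 1 / (2 * c) := by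
    rw [add_div]
    have : η / (2 * y.l1) ≤ 1 / (2 * c) :=
      div_le_div₀ (by norm_num) hη1 (by positivity) (by linarith)
    linarith
  have q3 : r / (2 * y.l2) ≤ (r + η) / (2 * y.l2) := by
    apply div_le_div_of_nonneg_right (by linarith) (by positivity)
  have q4 : 0 ≤ y.l2 / y.l1 := by positivity
  have q5 : 0 ≤ 5 / (2 * c ^ 2) + 1 / (2 * c) := by positivity
  have q6 : r ^ 2 / (2 * y.l1 * y.l2) = r ^ 2 * (1 / (2 * y.l1 * y.l2)) := by ring
  rw [e1, abs_le]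
  constructor
  · linarith [m1.1]
  · linarith [m2.2]

theorem TB (hLM : LM_stmt) (hSSB : SSB_stmt) : TB_stmt := by
  intro P C0 α hG hSW hAL
  obtain ⟨hC0, hSW⟩ := hSW
  obtain ⟨CA, hCA, hAL⟩ := hAL
  obtain ⟨CS, hCS, j0, hS⟩ := hSSB P C0 hG hC0
  have hP := Par_of_Gr hG
  have hR := GN_rt hG
  set c := min (ltau P.1) (ltau P.2.1) with hcdef
  set c' := max (len P.1) (len P.2.1) with hc'def
  have hc := hP.c0
  have hc' : 0 < c' := hc.trans_le hP.cc
  set K1 : ℝ := 5 / (2 * c ^ 2) + 1 / (2 * c) with hK1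
  have hK10 : 0 ≤ K1 := by positivity
  set K2 : ℝ := (C0 : ℝ) ^ 2 * (c' * C0 / c + 1 + K1) with hK2
  have hK20 : 0 ≤ K2 := by positivity
  refine ⟨3 * CS + K2 + 4 * CA, by positivity, max j0 16, ?_⟩
  intro j hj r hr1 hr2
  have hj0 : j0 ≤ j := (le_max_left _ _).trans hj
  have hj16 : 16 ≤ j := (le_max_right _ _).trans hj
  have hj1 : 1 ≤ j := by omega
  have hjr : (1 : ℝ) ≤ j := by exact_mod_cast hj1
  have hj4 : (j : ℝ) ^ 4 ≤ 2 ^ j := by exact_mod_cast TB_pow j hj16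
  have h2j : (1 : ℝ) ≤ 2 ^ j := one_le_pow₀ (by norm_num)
  have hr0 : 1 ≤ r := h2j.trans hr1
  set η : ℝ := 1 / 2 ^ (8 * j) with hη
  have hη0 : 0 ≤ η := by positivity
  have hη1 : η ≤ 1 := by
    rw [hη, div_le_one (by positivity)]
    exact one_le_pow₀ (by norm_num)
  have hrη : r * η ≤ 2 := by
    rw [hη, mul_one_div, div_le_iff₀ (by positivity)]
    calc r ≤ 2 ^ (j + 1) := hr2
      _ = 2 * 2 ^ j := by ring
      _ ≤ 2 * 2 ^ (8 * j) := by gcongr <;> first | omega | norm_num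
  set M := C0 * j with hM
  have hM1 : 1 ≤ M := by rw [hM]; exact Nat.mul_pos hC0 hj1
  have hleaf : ∀ y ∈ lvs M M (rt P), |Ht y.t r - r ^ 2 * (1 / (2 * y.l1 * y.l2))| ≤
      |SS y.l1 y.l2 r| + |SS y.l1 y.l2 (r + η)| + (c' * M / c + 1 + K1) := by
    intro y hy
    have hGy := GN_lvs M M (rt P) hR y hy
    have hsub := hSW j hj1 y hy r (by linarith) (hr2.trans (by
      apply pow_le_pow_right₀ (by norm_num) (by omega)))
    have h := TB_leaf hLM hP y hGy r η (by linarith) hη0 hη1 hrη hsub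
    refine h.trans ?_
    have hm2 : (y.m2 : ℝ) ≤ M := by
      exact_mod_cast (lvs_le M M (rt P) (by rw [rt_m1]; exact hM1) (by rw [rt_m2]; exact hM1) y hy).2
    have h1 : c ≤ y.l1 := hGy.l1_ge' hc
    have h2 : y.l2 ≤ c' * M := hGy.l2_le.trans (by gcongr)
    have : y.l2 / y.l1 ≤ c' * M / c := by
      apply div_le_div₀ (by positivity) h2 hc h1
    linarith
  -- sum over the leaves
  have hdiff : Ht P r - alM P M * r ^ 2 =
      lsum M M (rt P) (fun y => Ht y.t r - r ^ 2 * (1 / (2 * y.l1 * y.l2))) := by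
    have e1 := lsum_add M M (rt P) (fun y => r ^ 2 * (1 / (2 * y.l1 * y.l2)))
      (fun y => Ht y.t r - r ^ 2 * (1 / (2 * y.l1 * y.l2)))
    have e2 : lsum M M (rt P) (fun y => r ^ 2 * (1 / (2 * y.l1 * y.l2)) +
        (Ht y.t r - r ^ 2 * (1 / (2 * y.l1 * y.l2)))) = lsum M M (rt P) (fun y => Ht y.t r) :=
      lsum_congr _ _ _ _ _ (fun y _ => by ring)
    have e3 := lsum_Ht hG M M r
    have e4 := lsum_mul M M (rt P) (r ^ 2) (fun y => 1 / (2 * y.l1 * y.l2))
    unfold alM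
    linarith
  have hsum : |Ht P r - alM P M * r ^ 2| ≤ CS * r / j + CS * (r + η) / j +
      (M : ℝ) ^ 2 * (c' * M / c + 1 + K1) := by
    rw [hdiff]
    calc |lsum M M (rt P) (fun y => Ht y.t r - r ^ 2 * (1 / (2 * y.l1 * y.l2)))|
        ≤ lsum M M (rt P) (fun y => |Ht y.t r - r ^ 2 * (1 / (2 * y.l1 * y.l2))|) := lsum_abs _ _ _ _
      _ ≤ lsum M M (rt P) (fun y => |SS y.l1 y.l2 r| + |SS y.l1 y.l2 (r + η)| +
          (c' * M / c + 1 + K1)) := lsum_le _ _ _ _ _ hleaf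
      _ = lsum M M (rt P) (fun y => |SS y.l1 y.l2 r|) +
          lsum M M (rt P) (fun y => |SS y.l1 y.l2 (r + η)|) +
          lsum M M (rt P) (fun _ => c' * M / c + 1 + K1) := by
          rw [lsum_add M M (rt P) (fun y => |SS y.l1 y.l2 r| + |SS y.l1 y.l2 (r + η)|)
            (fun _ => c' * M / c + 1 + K1), lsum_add M M (rt P) (fun y => |SS y.l1 y.l2 r|)
            (fun y => |SS y.l1 y.l2 (r + η)|)]
      _ ≤ _ := by
          have a1 := hS j hj0 r hr1 (hr2.trans (by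
            apply pow_le_pow_right₀ (by norm_num) (by omega)))
          have a2 := hS j hj0 (r + η) (by linarith) (by
            calc r + η ≤ 2 ^ (j + 1) + 1 := by linarith
              _ ≤ 2 ^ (j + 1) + 2 ^ (j + 1) := by
                have : (1 : ℝ) ≤ 2 ^ (j + 1) := one_le_pow₀ (by norm_num)
                linarith
              _ = 2 ^ (j + 2) := by ring)
          have a3 := lsum_le_const hG M hM1 (fun _ => c' * M / c + 1 + K1) (c' * M / c + 1 + K1)
            (by positivity) (fun _ _ => le_rfl)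
          linarith
  have b1 : |alM P M - α| * r ^ 2 ≤ 4 * CA * r / j := by
    have h := hAL j hj1
    rw [← hM] at h
    have hjpos : (0 : ℝ) < j := by linarith
    calc |alM P M - α| * r ^ 2 ≤ CA / 2 ^ (4 * j) * r ^ 2 := by gcongr
      _ ≤ 4 * CA * r / j := by
        rw [div_mul_eq_mul_div, div_le_div_iff₀ (by positivity) hjpos]
        have h1 : r * j ≤ 4 * 2 ^ (4 * j) := by
          have hjj : (j : ℝ) ≤ 2 ^ j := by
            have : j ≤ 2 ^ j := Nat.lt_two_pow_self.le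
            exact_mod_cast this
          calc r * j ≤ 2 ^ (j + 1) * 2 ^ j := by gcongr
            _ = 2 * 2 ^ (2 * j) := by ring
            _ ≤ 4 * 2 ^ (4 * j) := by gcongr <;> first | omega | norm_num
        have h2 : 0 ≤ CA * r := by positivity
        calc CA * r ^ 2 * j = CA * r * (r * j) := by ring
          _ ≤ CA * r * (4 * 2 ^ (4 * j)) := mul_le_mul_of_nonneg_left h1 h2
          _ = 4 * CA * r * 2 ^ (4 * j) := by ring
  have b2 : (M : ℝ) ^ 2 * (c' * M / c + 1 + K1) ≤ K2 * r / j := by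
    have hjpos : (0 : ℝ) < j := by linarith
    rw [le_div_iff₀ hjpos]
    have hMr : (M : ℝ) = C0 * j := by rw [hM]; push_cast; ring
    have h1 : c' * M / c + 1 + K1 ≤ (c' * C0 / c + 1 + K1) * j := by
      rw [hMr]
      have e : c' * (C0 * j) / c = c' * C0 / c * j := by ring
      rw [e]
      nlinarith
    have h0 : 0 ≤ c' * C0 / c + 1 + K1 := by positivity
    calc (M : ℝ) ^ 2 * (c' * M / c + 1 + K1) * j
        ≤ (M : ℝ) ^ 2 * ((c' * C0 / c + 1 + K1) * j) * j := by gcongr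
      _ = K2 * (j : ℝ) ^ 4 := by rw [hMr, hK2]; ring
      _ ≤ K2 * r := by
        apply mul_le_mul_of_nonneg_left (hj4.trans hr1) hK20
  have b3 : CS * (r + η) / j ≤ 2 * CS * r / j := by
    apply div_le_div_of_nonneg_right _ (by linarith)
    nlinarith
  have e : Ht P r - α * r ^ 2 = (Ht P r - alM P M * r ^ 2) + (alM P M - α) * r ^ 2 := by ring
  rw [e]
  refine (abs_add_le _ _).trans ?_
  rw [abs_mul, abs_of_nonneg (sq_nonneg r)]
  have e2 : (3 * CS + K2 + 4 * CA) * r / j = CS * r / j + 2 * CS * r / j + K2 * r / j +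
      4 * CA * r / j := by ring
  rw [e2]
  linarith

end AM
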